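import Pool.Agent.H16.TO.Targets

set_option autoImplicit false

namespace Pool.Agent.H12.TW

open Pool.Agent.H16.TO

/-- comparison of two coordinates -/
theorem pf_cm : T_CM := by
  intro n i j δ hij h1 h2 h3 h4
  have key2 : ∀ k, (∀ x : ℕ → ℕ, (∀ k, x k < n k) → x j = k → (δ x = 1 ↔ x i = k)) →
      ∀ x : ℕ → ℕ, (∀ k, x k < n k) → x j = k → (δ x = 2 ↔ x i = k + 1) := by
    intro k hk x hx hxj
    rcases Nat.eq_zero_or_pos (x i) with h0 | h0
    · have := h1 x hx h0
      constructor
      · intro h; exact absurd h this
      · intro h; omega
    · obtain ⟨a, ha⟩ : ∃ a, x i = a + 1 := ⟨x i - 1, by omega⟩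
      have hy : ∀ c, Function.update x i a c < n c := by
        intro c
        rcases eq_or_ne c i with rfl | hc
        · rw [Function.update_self]
          have := hx c
          omega
        · rw [Function.update_of_ne hc]
          exact hx c
      have hyi : Function.update x i a i = a := Function.update_self ..
      have hyj : Function.update x i a j = k := by
        rw [Function.update_of_ne (Ne.symm hij)]
        exact hxj
      have e : Function.update (Function.update x i a) i (Function.update x i a i + 1) = x := by
        rw [hyi, Function.update_idem, ← ha, Function.update_eq_self]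
      have h := h3 _ hy (by rw [hyi, ← ha]; exact hx i)
      rw [e] at h
      rw [← h, hk _ hy hyj, hyi, ha]
      omega
  have key1 : ∀ k, ∀ x : ℕ → ℕ, (∀ k, x k < n k) → x j = k → (δ x = 1 ↔ x i = k) := by
    intro k
    induction k with
    | zero => intro x hx hxj; exact h2 x hx hxj
    | succ k ih =>
      intro x hx hxj
      have hy : ∀ c, Function.update x j k c < n c := by
        intro c
        rcases eq_or_ne c j with rfl | hc
        · rw [Function.update_self]
          have := hx c
          omega
        · rw [Function.update_of_ne hc]
          exact hx c
      have hyj : Function.update x j k j = k := Function.update_self ..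
      have hyi : Function.update x j k i = x i := Function.update_of_ne hij ..
      have e : Function.update (Function.update x j k) j (Function.update x j k j + 1) = x := by
        rw [hyj, Function.update_idem, ← hxj, Function.update_eq_self]
      have h := h4 _ hy (by rw [hyj, ← hxj]; exact hx j)
      rw [e] at h
      rw [← h, key2 k ih _ hy hyj, hyi]
  intro x hx
  exact ⟨key1 _ x hx rfl, key2 _ (key1 _) x hx rfl⟩

end Pool.Agent.H12.TW
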