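import Pool.Agent.H16.TO.Targets

set_option autoImplicit false

namespace Pool.Agent.H12.TW

open Pool.Agent.H16.TO Pool.Agent.H69.Sp

/-- soundness of the tilings of a first-order formula -/
theorem pf_gs (hCN : T_CN) (hCM : T_CM) (hGI : T_GI) : T_GS := by
  intro d B C φ hbd hrb hab hd n hBox hT
  obtain ⟨f, hf⟩ := hT
  have h1 : ∀ x : ℕ → ℕ, (∀ i, x i < n i) → ∀ i < d + C, ∀ j < d + C, i ≠ j →
      (dl (f x).1 i j = 1 ↔ x i = x j) := by
    intro x hx i hi j hj hij
    refine (hCM n i j (fun x => dl (f x).1 i j) hij ?_ ?_ ?_ ?_ x hx).1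
    · intro x hx h0
      exact ((hf x hx).1.1 i hi j hj hij).1 (decide_eq_true h0)
    · intro x hx h0
      have := ((hf x hx).1.1 i hi j hj hij).2.1 (decide_eq_true h0)
      rw [decide_eq_true_iff] at this
      exact this
    · intro x hx hlt
      exact (((hf x hx).2 i hi hlt).1 j hj (Ne.symm hij)).1
    · intro x hx hlt
      exact (((hf x hx).2 j hj hlt).1 i hi hij).2
  have h2 : ∀ i < d + C, ∀ j < d + C, ¬ n i < n j := by
    intro i hi j hj hlt
    have hij : i ≠ j := by
      rintro rfl
      exact lt_irrefl _ hlt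
    have hx : ∀ c, (fun c => if c = i ∨ c = j then n i - 1 else 0 : ℕ → ℕ) c < n c := by
      intro c
      have h0 := hBox.1 c
      have h0' := hBox.1 i
      show (if c = i ∨ c = j then n i - 1 else 0) < n c
      split_ifs with h
      · rcases h with rfl | rfl
        · omega
        · omega
      · exact h0
    have hd1 := (h1 _ hx i hi j hj hij).2 (by simp)
    have hd2 := ((hf _ hx).1.1 i hi j hj hij).2.2 hd1
    rw [decide_eq_true_iff, decide_eq_true_iff] at hd2
    have h0' := hBox.1 i
    simp only [true_or, or_true, if_true] at hd2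
    omega
  have hn : ∀ i < d + C, n i = n 0 := by
    intro i hi
    have a := h2 i hi 0 (by omega)
    have b := h2 0 (by omega) i hi
    omega
  refine ⟨hn, ?_⟩
  let y : List ℕ → ℕ → ℕ := fun l c => if d ≤ c ∧ c < d + l.length then l.getD (c - d) 0 else 0
  obtain ⟨I, hI⟩ : ∃ I : ℕ → List ℕ → Prop, ∀ i l, I i l ↔
      (i < B ∧ l.length ≤ C ∧ rh (f (y l)).2.1 i l.length = true) := ⟨_, fun _ _ => Iff.rfl⟩
  refine ⟨I, ?_⟩
  have h3 : ∀ x : ℕ → ℕ, (∀ i, x i < n i) → ∀ i < B, ∀ a ≤ C,
      (rh (f x).2.1 i a = true ↔ I i ((List.range a).map fun k => x (d + k))) := by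
    intro x hx i hi a ha
    have hlen : ((List.range a).map fun k => x (d + k)).length = a := by simp
    have hy : ∀ c, y ((List.range a).map fun k => x (d + k)) c =
        if d ≤ c ∧ c < d + a then x c else 0 := by
      intro c
      show (if d ≤ c ∧ c < d + ((List.range a).map fun k => x (d + k)).length then
        ((List.range a).map fun k => x (d + k)).getD (c - d) 0 else 0) = _
      rw [hlen]
      by_cases h : d ≤ c ∧ c < d + a
      · rw [if_pos h, if_pos h]
        have hc : c - d < a := by omega
        rw [List.getD_eq_getElem _ _ (by rw [hlen]; exact hc)]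
        simp only [List.getElem_map, List.getElem_range]
        congr 1
        omega
      · rw [if_neg h, if_neg h]
    have hyb : ∀ c, y ((List.range a).map fun k => x (d + k)) c < n c := by
      intro c
      rw [hy c]
      split_ifs
      · exact hx c
      · exact hBox.1 c
    have hc : rh (f x).2.1 i a = rh (f (y ((List.range a).map fun k => x (d + k)))).2.1 i a := by
      refine hCN Bool (d + C) n {j | d ≤ j ∧ j < d + a} (fun x => rh (f x).2.1 i a) ?_ x _ hx hyb ?_
      · intro x hx j hj hjJ hlt
        exact ((hf x hx).2 j hj hlt).2.1 i hi a ha hjJ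
      · intro j hj
        rw [hy j]
        rcases hj with hj | hj
        · have hj' : d ≤ j ∧ j < d + a := hj
          rw [if_pos hj']
        · rw [if_neg (by omega)]
          have e := hBox.2 j hj
          have := hx j
          omega
    rw [hI, hlen, ← hc]
    exact ⟨fun h => ⟨hi, ha, h⟩, fun h => h.2.2⟩
  have h0 : ∀ i, (fun _ => 0 : ℕ → ℕ) i < n i := fun i => hBox.1 i
  have h4 := (hGI d (n 0) B C n hBox hn (fun x => (f x).1) (fun x => (f x).2.1) I h1 h3 φ hbd hrb hab
    (fun x => (f x).2.2) (fun x hx => (hf x hx).1.2.1) (fun x hx j hj hlt => ((hf x hx).2 j hj hlt).2.2)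
    (fun _ => 0) h0).1 (hf _ h0).1.2.2
  have hva : va d (fun _ => 0) = fun _ => 0 := by
    funext c
    unfold va
    split_ifs <;> rfl
  rw [hva] at h4
  exact h4

end Pool.Agent.H12.TW
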